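import Pool.Agent.H24.LV.Targets
import Pool.Agent.H24.CL.AllK

/-!
Chains with growth in the first `k` windows are rare, with all constants as numeric hypotheses. The
proof is a copy of `Pool.Agent.H25.LVP.pf_BDL`; the last class is bounded by the weak type estimate
`L_WT`.
-/

set_option autoImplicit false

open Finset MeasureTheory

namespace Pool.Agent.H25.PL

open Pool.Agent.H24.CL Pool.Agent.H24.LV Pool.Agent.H33.CLK

/-- the conclusion of the game for given parameters -/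
def GAc (k : ℕ) (c₁ D dG kap : ℝ) : Prop :=
  ∀ (m : ℕ) (g p : ℕ → ℝ) (R : ℕ → ℕ), (m : ℝ) ≤ ((KN k : ℝ) + 4) * D →
    (∀ j, 0 ≤ g j) → (∀ j, 0 ≤ p j ∧ p j ≤ 1) → (∀ j, R j ≤ k) →
    (∀ j < m, 1 ≤ R j → 1 - kap ≤ p j) →
    (∀ j < m, p j ≤ g j + kap) → D - 4 ≤ ∑ j ∈ range m, (1 - g j) → (∃ l < k, c₁ ≤ g l) →
    ∃ (n' : ℕ) (x : ℕ → ℝ), n' + (k - 1) ≤ m ∧ (∀ j < n', OptK k R g p kap j (x j)) ∧
      dG ≤ ∑ j ∈ range n', x j

theorem bdx (hWT : L_WT) : ∀ k : ℕ, 3 ≤ k → ∃ (CS CW : ℝ) (E : ℕ), 1 ≤ CS ∧ 1 ≤ CW ∧ 1 ≤ E ∧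
    ∀ c₁ D dG kap : ℝ, 0 < c₁ → (k : ℝ) + 4 ≤ D → 0 < dG → 0 < kap → GAc k c₁ D dG kap →
    ∀ (ε T : ℝ) (m q L : ℕ) (t₀ : ℝ) (W : ℕ → Set (X k)) (A n : ℕ → ℝ) (R : ℕ → ℕ),
      0 < ε → ε ≤ kap → 8 * E * (((KN k : ℝ) + 4) * D) * ε ≤ dG →
      6 * (((KN k : ℝ) + 4) * D) * ε ≤ 1 → 1 ≤ T → (m : ℝ) ≤ ((KN k : ℝ) + 4) * D →
      k + 4 ≤ q → q.Prime → 4 * ((k : ℝ) - 1) ≤ (q : ℝ) ^ kap →
      2 * (Nat.factorial k : ℝ) ≤ (q : ℝ) ^ kap → 2 * (k : ℝ) ≤ (q : ℝ) ^ ε →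
      (2 ^ m) ^ (2 * KN k) * (CS * T ^ (2 * KN k)) ^ m * CW ≤ (q : ℝ) ^ (dG / 8) →
      2 * (4 * T ^ 2) ^ m ≤ (q : ℝ) ^ (1 / 2 : ℝ) → 1 ≤ L → 0 < t₀ →
      (q : ℝ) ^ (D - 1) ≤ ((q : ℝ) ^ m * L) * t₀ ^ 2 →
      ((q : ℝ) ^ m * L) * t₀ ^ 2 ≤ (q : ℝ) ^ (D + 1) →
      (((KN k : ℝ) + 2) * (D + 1) ≤ m ∨ L ≤ q ^ 2) →
      IsChain k q m L T ((q : ℝ) ^ ε) t₀ W A n → IsLab k q m ((q : ℝ) ^ ε) W n R →
      (∃ l < k, (q : ℝ) ^ c₁ ≤ Gr q T ((q : ℝ) ^ ε) A n l) →
      ((q : ℝ) ^ m * L) ^ (KN k) * t₀ ^ (2 * KN k) * volume.real (W 0) ≤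
        (q : ℝ) ^ (-(min (dG / 2) 1)) := by
  have hLA := rLA
  have hPH := rPH
  have hVC := rVC
  have hVA := rVA
  have hEX := rEX
  intro k hk3
  obtain ⟨CS, cS, hCS, hStp⟩ := steps kS1 kS2 kS3 kS4 k hk3
  obtain ⟨C, hC1, hTA1⟩ := hWT k hk3
  obtain ⟨KK, hKK⟩ : ∃ KK : ℕ, KK = KN k := ⟨_, rfl⟩
  obtain ⟨E, hE⟩ : ∃ E : ℕ, E = 2 * cS + 3 * KK + 1 := ⟨_, rfl⟩
  refine ⟨CS, C, E, hCS, hC1, by omega, ?_⟩
  intro c₁ D dG kap hc0 hDk hdG hkap hGA2 ε T m q L t₀ W A n R hε hεk hε1 hε2 hT hm hqk hqp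
    hk16a hk16b hrk hKb hKc hL ht₀ hlo hhi hmL hch hlab hgr
  unfold GAc at hGA2
  rw [← hKK] at hGA2 hε1 hε2 hm hKb hmL ⊢
  have hk3r : (3 : ℝ) ≤ k := by exact_mod_cast hk3
  have hD7 : 7 ≤ D := by linarith
  have hD0 : 0 < D := by linarith
  have hKK0 : (0 : ℝ) ≤ KK := Nat.cast_nonneg _
  have hcS0 : (0 : ℝ) ≤ cS := Nat.cast_nonneg _
  obtain ⟨V, hV⟩ : ∃ V : ℝ, V = (KK + 4) * D := ⟨_, rfl⟩
  rw [← hV] at hε1 hε2
  have hV0 : 0 < V := by rw [hV]; positivity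
  have hE0 : (0 : ℝ) < E := by
    rw [hE]
    push_cast
    positivity
  have hm0 : (0 : ℝ) ≤ m := Nat.cast_nonneg _
  have hmV : (m : ℝ) ≤ V := by rw [hV]; exact hm
  have hεm : (E : ℝ) * ε * m ≤ dG / 8 := by
    have h1 : (E : ℝ) * ε * m ≤ E * ε * V := mul_le_mul_of_nonneg_left hmV (by positivity)
    linarith
  have hεm2 : 3 * ε * m ≤ 1 / 2 := by
    have h1 : ε * m ≤ ε * V := mul_le_mul_of_nonneg_left hmV hε.le
    linarith
  -- the constants
  obtain ⟨K1, hK1⟩ : ∃ K1 : ℝ, K1 = (2 ^ m) ^ (2 * KK) * (CS * T ^ (2 * KK)) ^ m * C := ⟨_, rfl⟩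
  obtain ⟨K2, hK2⟩ : ∃ K2 : ℝ, K2 = 2 * (4 * T ^ 2) ^ m := ⟨_, rfl⟩
  rw [← hK1] at hKb
  rw [← hK2] at hKc
  have hq4 : 4 ≤ q := by omega
  have hkq : k < q := by omega
  obtain ⟨Q, hQ⟩ : ∃ Q : ℝ, Q = (q : ℝ) := ⟨_, rfl⟩
  have hQ4 : (4 : ℝ) ≤ Q := by rw [hQ]; exact_mod_cast hq4
  have hQ1 : 1 < Q := by linarith
  have hQ0 : 0 < Q := by linarith
  have hL0 : (0 : ℝ) < L := by exact_mod_cast hL
  rw [← hQ] at hk16a hk16b hKb hKc hlo hhi
  -- nonempty classes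
  by_cases hne0 : (W 0).Nonempty
  swap
  · rw [Set.not_nonempty_iff_eq_empty] at hne0
    rw [hne0, measureReal_empty, mul_zero]
    positivity
  have hne : ∀ j ≤ m, (W j).Nonempty := by
    classical
    intro j
    induction j with
    | zero => intro _; exact hne0
    | succ j ih =>
      intro hj
      obtain ⟨w, hw⟩ := ih (by omega)
      have h1 := hch.card_lo j (by omega) w hw
      have h2 := hch.one_le j (by omega)
      have h3 : (1 : ℝ) ≤ ((pos q (W (j + 1)) w).card : ℝ) := h2.trans h1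
      have h4 : 1 ≤ (pos q (W (j + 1)) w).card := by exact_mod_cast h3
      obtain ⟨b, hb⟩ := Finset.card_pos.1 h4
      unfold pos at hb
      exact ⟨_, (Finset.mem_filter.1 hb).2⟩
  obtain ⟨rho, hrho⟩ : ∃ rho : ℝ, rho = (q : ℝ) ^ ε := ⟨_, rfl⟩
  rw [← hrho] at hch hgr hlab hrk
  have hrho1 : 1 ≤ rho := by
    rw [hrho, ← hQ]
    exact Real.one_le_rpow hQ1.le hε.le
  have hrho0 : 0 < rho := by linarith
  have hT0 : 0 < T := by linarith
  have hA0 : ∀ j ≤ m, 0 < A j := fun j hj => lt_of_lt_of_le (by positivity) (hch.A_lo j hj)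
  have hla := hLA k q m L T rho t₀ W A n (by omega) (by omega) hL hT hrho1 ht₀ hch
  have hph := hPH k q m L T rho t₀ W A n (by omega) hqp hkq hL hT hrho1 ht₀ hch
  have hn1 : ∀ j < m, 1 ≤ n j := hch.one_le
  have hnq : ∀ j < m, n j ≤ Q := by
    intro j hj
    rw [hQ]
    exact hch.n_le j hj
  have hG1 : ∀ j < m, 1 ≤ Gr q T rho A n j := fun j hj => ((hla j hj).2.2 (hne j hj.le)).1
  -- logarithms
  obtain ⟨g, hg⟩ : ∃ g : ℕ → ℝ, g = fun j =>
    if j < m then Real.logb Q (Gr q T rho A n j) else 0 := ⟨_, rfl⟩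
  obtain ⟨p, hp⟩ : ∃ p : ℕ → ℝ, p = fun j => if j < m then 1 - Real.logb Q (n j) else 0 :=
    ⟨_, rfl⟩
  have hgj : ∀ j < m, Q ^ g j = Gr q T rho A n j := by
    intro j hj
    rw [hg]
    simp only [hj, if_true]
    exact Real.rpow_logb hQ0 hQ1.ne' (by linarith [hG1 j hj])
  have hpj : ∀ j < m, Q ^ (1 - p j) = n j := by
    intro j hj
    rw [hp]
    simp only [hj, if_true]
    rw [sub_sub_cancel]
    exact Real.rpow_logb hQ0 hQ1.ne' (by linarith [hn1 j hj])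
  have hg0 : ∀ j, 0 ≤ g j := by
    intro j
    rw [hg]
    by_cases hj : j < m
    · simp only [hj, if_true]
      exact Real.logb_nonneg hQ1 (hG1 j hj)
    · simp only [hj, if_false]
      exact le_rfl
  have hp0 : ∀ j, 0 ≤ p j ∧ p j ≤ 1 := by
    intro j
    rw [hp]
    by_cases hj : j < m
    · simp only [hj, if_true]
      have h1 : 0 ≤ Real.logb Q (n j) := Real.logb_nonneg hQ1 (hn1 j hj)
      have h2 : Real.logb Q (n j) ≤ Real.logb Q Q :=
        Real.logb_le_logb_of_le hQ1 (by linarith [hn1 j hj]) (hnq j hj)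
      rw [Real.logb_self_eq_one hQ1] at h2
      exact ⟨by linarith, by linarith⟩
    · simp only [hj, if_false]
      exact ⟨le_rfl, zero_le_one⟩
  have hpg : ∀ j < m, p j ≤ g j + kap := by
    intro j hj
    have h1 := ((hla j hj).2.2 (hne j hj.le)).2
    rw [← hgj j hj, ← hpj j hj, hrho, ← hQ, ← Real.rpow_add hQ0, ← Real.rpow_add hQ0] at h1
    have h2 : Q ^ (1 : ℝ) ≤ Q ^ (ε + (1 - p j) + g j) := by
      rw [Real.rpow_one]
      exact h1
    rw [Real.rpow_le_rpow_left_iff hQ1] at h2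
    linarith
  -- amplitudes of successive classes
  have hAA : ∀ j < m, A (j + 1) ^ 2 * (T ^ 2 * rho ^ 3) = A j ^ 2 * Q ^ (g j + p j) := by
    intro j hj
    have h1 : Q ^ (g j + p j) = Gr q T rho A n j * (Q / n j) := by
      have h2 : Q / n j = Q ^ p j := by
        rw [← hpj j hj]
        nth_rewrite 1 [← Real.rpow_one Q]
        rw [← Real.rpow_sub hQ0]
        congr 1
        ring
      rw [h2, ← hgj j hj, Real.rpow_add hQ0]
    rw [h1]
    unfold Gr
    rw [← hQ]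
    have h3 : A j ≠ 0 := (hA0 j hj.le).ne'
    have h4 : n j ≠ 0 := by
      have := hn1 j hj
      linarith
    field_simp
  -- the product of all growths
  have hprodA : ∀ i ≤ m, A i ^ 2 * (T ^ 2 * rho ^ 3) ^ i =
      A 0 ^ 2 * Q ^ (∑ j ∈ range i, (g j + p j)) := by
    intro i
    induction i with
    | zero => intro _; simp
    | succ i ih =>
      intro hi
      have h1 := ih (by omega)
      have h2 := hAA i (by omega)
      rw [Finset.sum_range_succ, Real.rpow_add hQ0, pow_succ]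
      calc A (i + 1) ^ 2 * ((T ^ 2 * rho ^ 3) ^ i * (T ^ 2 * rho ^ 3))
          = (A (i + 1) ^ 2 * (T ^ 2 * rho ^ 3)) * (T ^ 2 * rho ^ 3) ^ i := by ring
        _ = (A i ^ 2 * (T ^ 2 * rho ^ 3) ^ i) * Q ^ (g i + p i) := by rw [h2]; ring
        _ = A 0 ^ 2 * (Q ^ (∑ j ∈ range i, (g j + p j)) * Q ^ (g i + p i)) := by
            rw [h1]; ring
  have hQm : ((q : ℝ)) ^ m = Q ^ (m : ℝ) := by rw [Real.rpow_natCast, hQ]
  have hA0t : t₀ ^ 2 ≤ 4 ^ m * A 0 ^ 2 := by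
    have h1 := hch.A_lo 0 (Nat.zero_le _)
    have h2 : t₀ ≤ 2 ^ m * A 0 := by
      rw [div_le_iff₀ (by positivity)] at h1
      linarith
    calc t₀ ^ 2 ≤ (2 ^ m * A 0) ^ 2 := pow_le_pow_left₀ ht₀.le h2 2
      _ = 4 ^ m * A 0 ^ 2 := by
          rw [mul_pow, ← pow_mul, mul_comm m 2, pow_mul]
          norm_num
  have hTr : (T ^ 2 * rho ^ 3) ^ m * 4 ^ m = (4 * T ^ 2) ^ m * Q ^ (3 * ε * m) := by
    have h1 : (rho ^ 3) ^ m = Q ^ (3 * ε * m) := by
      rw [← pow_mul, hrho, ← hQ, ← Real.rpow_natCast (Q ^ ε) (3 * m), ← Real.rpow_mul hQ0.le]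
      congr 1
      push_cast
      ring
    rw [mul_pow, h1, mul_pow]
    ring
  have hsmall : (4 * T ^ 2) ^ m * Q ^ (3 * ε * m) ≤ Q ^ (1 : ℝ) / 2 := by
    have h1 : (4 * T ^ 2) ^ m ≤ Q ^ (1 / 2 : ℝ) / 2 := by
      rw [hK2] at hKc
      linarith
    have h2 : Q ^ (3 * ε * m) ≤ Q ^ (1 / 2 : ℝ) :=
      Real.rpow_le_rpow_of_exponent_le hQ1.le hεm2
    have h3 : Q ^ (1 : ℝ) = Q ^ (1 / 2 : ℝ) * Q ^ (1 / 2 : ℝ) := by
      rw [← Real.rpow_add hQ0]
      norm_num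
    have h4 : 0 ≤ Q ^ (3 * ε * m) := by positivity
    have h5 : 0 ≤ Q ^ (1 / 2 : ℝ) := by positivity
    calc (4 * T ^ 2) ^ m * Q ^ (3 * ε * m) ≤ (Q ^ (1 / 2 : ℝ) / 2) * Q ^ (1 / 2 : ℝ) :=
          mul_le_mul h1 h2 h4 (by positivity)
      _ = Q ^ (1 : ℝ) / 2 := by rw [h3]; ring
  -- either the class is in the exceptional set of the variance lemma, or the growths are small
  have hkey : (((q : ℝ) ^ m * L) ^ KK * t₀ ^ (2 * KK) * volume.real (W 0) ≤
      (q : ℝ) ^ (-(min (dG / 2) 1))) ∨ D - 4 ≤ ∑ j ∈ range m, (1 - g j) := by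
    have hsumg : ∑ j ∈ range m, (1 - g j) = m - ∑ j ∈ range m, g j := by
      rw [Finset.sum_sub_distrib, Finset.sum_const, Finset.card_range, nsmul_eq_mul, mul_one]
    have hNt : Q ^ (D - 1) ≤ Q ^ (m : ℝ) * L * t₀ ^ 2 := by
      rw [← hQm, hQ]
      rw [hQ] at hlo
      exact hlo
    rcases hmL with hm8 | hL2
    · by_cases hsub : W 0 ⊆ {a : X k | 2 * ((q ^ m : ℕ) : ℝ) * L ≤
          ∑ B ∈ range (q ^ m), ‖fc (q ^ m) B L a‖ ^ 2}
      · left
        have h1 := hVA k (q ^ m) L (by omega) (Nat.one_le_pow _ _ (by omega)) hL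
        have h2 : volume.real (W 0) ≤ 1 / ((q ^ m : ℕ) : ℝ) :=
          (measureReal_mono hsub (measure_ne_top _ _)).trans h1
        have h3 : ((q : ℝ) ^ m * L) ^ KK * t₀ ^ (2 * KK) =
            (((q : ℝ) ^ m * L) * t₀ ^ 2) ^ KK := by
          rw [mul_pow _ (t₀ ^ 2), ← pow_mul]
        have h4 : (((q : ℝ) ^ m * L) * t₀ ^ 2) ^ KK ≤ Q ^ (KK * (D + 1)) := by
          have h5 : (((q : ℝ) ^ m * L) * t₀ ^ 2) ^ KK ≤ (Q ^ (D + 1)) ^ KK := by
            refine pow_le_pow_left₀ (by positivity) ?_ KK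
            rw [← hQ]
            exact hhi
          refine h5.trans (le_of_eq ?_)
          rw [← Real.rpow_natCast (Q ^ (D + 1)) KK, ← Real.rpow_mul hQ0.le]
          congr 1
          ring
        have h5 : 1 / ((q ^ m : ℕ) : ℝ) = Q ^ (-(m : ℝ)) := by
          rw [Nat.cast_pow, hQm, Real.rpow_neg hQ0.le, one_div]
        rw [h5] at h2
        rw [h3]
        calc (((q : ℝ) ^ m * L) * t₀ ^ 2) ^ KK * volume.real (W 0)
            ≤ Q ^ (KK * (D + 1)) * Q ^ (-(m : ℝ)) :=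
              mul_le_mul h4 h2 measureReal_nonneg (by positivity)
          _ = Q ^ (KK * (D + 1) + -(m : ℝ)) := (Real.rpow_add hQ0 _ _).symm
          _ ≤ Q ^ (-(min (dG / 2) 1)) := by
              refine Real.rpow_le_rpow_of_exponent_le hQ1.le ?_
              have := min_le_right (dG / 2) 1
              linarith
          _ = (q : ℝ) ^ (-(min (dG / 2) 1)) := by rw [hQ]
      · right
        rw [Set.not_subset] at hsub
        obtain ⟨w, hw, hw2⟩ := hsub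
        rw [Set.mem_ofPred_eq, not_le] at hw2
        have h1 := hVC k q m L T rho t₀ W A n (by omega) (by omega) hL hT hrho1 ht₀ hch w hw
        have h2 : (∏ j ∈ range m, n j) * (A m * L) ^ 2 ≤ 2 * (Q ^ (m : ℝ) * L) := by
          refine h1.trans (hw2.le.trans (le_of_eq ?_))
          rw [Nat.cast_pow, hQm]
          ring
        have h3 : ∏ j ∈ range m, n j = Q ^ ((m : ℝ) - ∑ j ∈ range m, p j) := by
          have h4 : ∀ i ≤ m, ∏ j ∈ range i, n j = Q ^ ((i : ℝ) - ∑ j ∈ range i, p j) := by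
            intro i
            induction i with
            | zero => intro _; simp
            | succ i ih =>
              intro hi
              rw [Finset.prod_range_succ, ih (by omega), ← hpj i (by omega), ← Real.rpow_add hQ0,
                Finset.sum_range_succ]
              congr 1
              push_cast
              ring
          exact h4 m le_rfl
        have h4 := hprodA m le_rfl
        -- A m ^ 2 * prod n * (T^2 rho^3)^m = A 0 ^2 Q^(m + sum g)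
        have h5 : (∏ j ∈ range m, n j) * A m ^ 2 * (T ^ 2 * rho ^ 3) ^ m =
            A 0 ^ 2 * Q ^ ((m : ℝ) + ∑ j ∈ range m, g j) := by
          rw [h3, mul_assoc, h4]
          have : Q ^ ((m : ℝ) + ∑ j ∈ range m, g j) =
              Q ^ ((m : ℝ) - ∑ j ∈ range m, p j) * Q ^ (∑ j ∈ range m, (g j + p j)) := by
            rw [← Real.rpow_add hQ0, Finset.sum_add_distrib]
            congr 1
            ring
          rw [this]
          ring
        have h6 : A 0 ^ 2 * Q ^ ((m : ℝ) + ∑ j ∈ range m, g j) * L ≤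
            2 * Q ^ (m : ℝ) * (T ^ 2 * rho ^ 3) ^ m := by
          rw [← h5]
          have h7 : 0 < (T ^ 2 * rho ^ 3) ^ m := by positivity
          have h8 : ((∏ j ∈ range m, n j) * A m ^ 2 * L) * L ≤ (2 * Q ^ (m : ℝ)) * L := by
            calc ((∏ j ∈ range m, n j) * A m ^ 2 * L) * L =
                  (∏ j ∈ range m, n j) * (A m * L) ^ 2 := by ring
              _ ≤ 2 * (Q ^ (m : ℝ) * L) := h2
              _ = (2 * Q ^ (m : ℝ)) * L := by ring
          have h9 := le_of_mul_le_mul_right h8 hL0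
          calc (∏ j ∈ range m, n j) * A m ^ 2 * (T ^ 2 * rho ^ 3) ^ m * L =
                ((∏ j ∈ range m, n j) * A m ^ 2 * L) * (T ^ 2 * rho ^ 3) ^ m := by ring
            _ ≤ (2 * Q ^ (m : ℝ)) * (T ^ 2 * rho ^ 3) ^ m :=
                mul_le_mul_of_nonneg_right h9 h7.le
        have h7 : Q ^ (D - 1) * Q ^ (∑ j ∈ range m, g j) ≤ Q ^ (m : ℝ) * Q ^ (1 : ℝ) := by
          have h8 : Q ^ ((m : ℝ) + ∑ j ∈ range m, g j) =
              Q ^ (m : ℝ) * Q ^ (∑ j ∈ range m, g j) := Real.rpow_add hQ0 _ _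
          have h9 : 0 < Q ^ (∑ j ∈ range m, g j) := Real.rpow_pos_of_pos hQ0 _
          have h10 : 0 < Q ^ (m : ℝ) := Real.rpow_pos_of_pos hQ0 _
          calc Q ^ (D - 1) * Q ^ (∑ j ∈ range m, g j)
              ≤ (Q ^ (m : ℝ) * L * t₀ ^ 2) * Q ^ (∑ j ∈ range m, g j) :=
                mul_le_mul_of_nonneg_right hNt h9.le
            _ ≤ (Q ^ (m : ℝ) * L * (4 ^ m * A 0 ^ 2)) * Q ^ (∑ j ∈ range m, g j) := by
                refine mul_le_mul_of_nonneg_right ?_ h9.le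
                exact mul_le_mul_of_nonneg_left hA0t (by positivity)
            _ = 4 ^ m * (A 0 ^ 2 * Q ^ ((m : ℝ) + ∑ j ∈ range m, g j) * L) := by
                rw [h8]; ring
            _ ≤ 4 ^ m * (2 * Q ^ (m : ℝ) * (T ^ 2 * rho ^ 3) ^ m) :=
                mul_le_mul_of_nonneg_left h6 (by positivity)
            _ = 2 * Q ^ (m : ℝ) * ((T ^ 2 * rho ^ 3) ^ m * 4 ^ m) := by ring
            _ ≤ 2 * Q ^ (m : ℝ) * (Q ^ (1 : ℝ) / 2) := by
                rw [hTr]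
                exact mul_le_mul_of_nonneg_left hsmall (by positivity)
            _ = Q ^ (m : ℝ) * Q ^ (1 : ℝ) := by ring
        rw [← Real.rpow_add hQ0, ← Real.rpow_add hQ0, Real.rpow_le_rpow_left_iff hQ1] at h7
        rw [hsumg]
        linarith
    · right
      obtain ⟨w, hw⟩ := hne m le_rfl
      have h1 := hch.lo m le_rfl w hw
      have h2 : A m ≤ 1 := h1.trans (hEX.2.2.2.2.2.2.2.2 k _ w)
      have h4 := hprodA m le_rfl
      have hL2' : (L : ℝ) ≤ Q ^ (2 : ℝ) := by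
        rw [hQ]
        have : ((L : ℕ) : ℝ) ≤ ((q ^ 2 : ℕ) : ℝ) := by exact_mod_cast hL2
        rw [Nat.cast_pow] at this
        rw [show (2 : ℝ) = ((2 : ℕ) : ℝ) by norm_num, Real.rpow_natCast]
        exact this
      have h5 : A m ^ 2 ≤ 1 := pow_le_one₀ (hA0 m le_rfl).le h2
      have h6 : A 0 ^ 2 * Q ^ (∑ j ∈ range m, (g j + p j)) ≤ (T ^ 2 * rho ^ 3) ^ m := by
        rw [← h4]
        have : 0 < (T ^ 2 * rho ^ 3) ^ m := by positivity
        exact mul_le_of_le_one_left this.le h5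
      have h7 : Q ^ (D - 1) * Q ^ (∑ j ∈ range m, (g j + p j)) ≤
          Q ^ (m : ℝ) * Q ^ (2 : ℝ) * Q ^ (1 : ℝ) := by
        have h9 : 0 < Q ^ (∑ j ∈ range m, (g j + p j)) := Real.rpow_pos_of_pos hQ0 _
        have h10 : 0 < Q ^ (m : ℝ) := Real.rpow_pos_of_pos hQ0 _
        have h11 : 0 < Q ^ (1 : ℝ) := Real.rpow_pos_of_pos hQ0 _
        calc Q ^ (D - 1) * Q ^ (∑ j ∈ range m, (g j + p j))
            ≤ (Q ^ (m : ℝ) * L * t₀ ^ 2) * Q ^ (∑ j ∈ range m, (g j + p j)) :=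
              mul_le_mul_of_nonneg_right hNt h9.le
          _ ≤ (Q ^ (m : ℝ) * L * (4 ^ m * A 0 ^ 2)) * Q ^ (∑ j ∈ range m, (g j + p j)) := by
              refine mul_le_mul_of_nonneg_right ?_ h9.le
              exact mul_le_mul_of_nonneg_left hA0t (by positivity)
          _ = Q ^ (m : ℝ) * L * (4 ^ m * (A 0 ^ 2 * Q ^ (∑ j ∈ range m, (g j + p j)))) := by ring
          _ ≤ Q ^ (m : ℝ) * L * (4 ^ m * (T ^ 2 * rho ^ 3) ^ m) := by
              refine mul_le_mul_of_nonneg_left ?_ (by positivity)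
              exact mul_le_mul_of_nonneg_left h6 (by positivity)
          _ = Q ^ (m : ℝ) * L * ((T ^ 2 * rho ^ 3) ^ m * 4 ^ m) := by ring
          _ ≤ Q ^ (m : ℝ) * L * (Q ^ (1 : ℝ) / 2) := by
              rw [hTr]
              exact mul_le_mul_of_nonneg_left hsmall (by positivity)
          _ ≤ Q ^ (m : ℝ) * Q ^ (2 : ℝ) * (Q ^ (1 : ℝ) / 2) := by
              refine mul_le_mul_of_nonneg_right ?_ (by positivity)
              exact mul_le_mul_of_nonneg_left hL2' h10.le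
          _ ≤ Q ^ (m : ℝ) * Q ^ (2 : ℝ) * Q ^ (1 : ℝ) := by
              exact mul_le_mul_of_nonneg_left (half_le_self h11.le) (by positivity)
      rw [← Real.rpow_add hQ0, ← Real.rpow_add hQ0, ← Real.rpow_add hQ0,
        Real.rpow_le_rpow_left_iff hQ1, Finset.sum_add_distrib] at h7
      have h8 : 0 ≤ ∑ j ∈ range m, p j := Finset.sum_nonneg fun j _ => (hp0 j).1
      rw [hsumg]
      linarith
  rcases hkey with hkey | hkey
  · exact hkey
  -- the length is at least `k`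
  have hmk : k ≤ m := by
    have h1 : ∑ j ∈ range m, (1 - g j) ≤ ∑ _j ∈ range m, (1 : ℝ) :=
      Finset.sum_le_sum fun j _ => by linarith [hg0 j]
    rw [Finset.sum_const, Finset.card_range, nsmul_eq_mul, mul_one] at h1
    have h2 : (k : ℝ) ≤ m := by linarith
    exact_mod_cast h2
  obtain ⟨l, hl3, hl⟩ := hgr
  have hlg : c₁ ≤ g l := by
    rw [← hgj l (by omega), ← hQ, Real.rpow_le_rpow_left_iff hQ1] at hl
    exact hl
  obtain ⟨R', hR'⟩ : ∃ R' : ℕ → ℕ, R' = fun j => if j < m then R j else 0 := ⟨_, rfl⟩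
  have hR'j : ∀ j < m, R' j = R j := by
    intro j hj
    rw [hR']
    simp only [hj, if_true]
  have hR'k : ∀ j, R' j ≤ k := by
    intro j
    by_cases hj : j < m
    · rw [hR'j j hj]
      exact hlab.le j hj
    · rw [hR']
      simp only [hj, if_false]
      exact Nat.zero_le _
  have hR'p : ∀ j < m, 1 ≤ R' j → 1 - kap ≤ p j := by
    intro j hj hR1
    rw [hR'j j hj] at hR1
    have h1 := hlab.few j hj hR1
    rw [← hpj j hj, hrho, ← hQ, Real.rpow_le_rpow_left_iff hQ1] at h1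
    linarith
  obtain ⟨n', x, hn', hopt, hsum⟩ := hGA2 m g p R' hm hg0 hp0 hR'k hR'p hpg hkey ⟨l, hl3, hlg⟩
  -- the steps
  obtain ⟨F, hF⟩ : ∃ F : ℕ → ℝ, F = fun j =>
    (Q ^ (m - j) * L) ^ KK * volume.real (W j) * A j ^ (2 * KK) := ⟨_, rfl⟩
  have hFstep : ∀ j < n', F j ≤ (CS * (rho ^ 2) ^ cS * (T ^ 2 * rho ^ 3) ^ KK) *
      Q ^ (-x j) * F (j + 1) := by
    intro j hj
    have hjm : j + k ≤ m := by omega
    have hnum := step_log (kap := kap) (x := x j) hk3 hqp hkq hQ hQ1 hCS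
      hk16a hk16b hrk hStp W n g p
      (Gr q T rho A n) R' j (hch.meas j (by omega)) (hch.meas (j + 1) (by omega))
      (fun l hl => hn1 (j + l) (by omega))
      (fun l hl => by
        have := hnq (j + l) (by omega)
        rw [hQ] at this
        exact this)
      (fun l hl => hG1 (j + l) (by omega)) (fun l hl => hgj (j + l) (by omega))
      (fun l hl => hpj (j + l) (by omega)) (fun l hl => (hla (j + l) (by omega)).2.1)
      (fun l hl => (hla (j + l) (by omega)).1) (fun l hl => hph (j + l) (by omega))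
      (fun l hl hR1 => by
        rw [hR'j (j + l) (by omega)] at hR1 ⊢
        exact hlab.pass (j + l) (by omega) hR1)
      (fun hR1 hR2 => by
        rw [hR'j j (by omega)] at hR1 hR2 ⊢
        exact hlab.own j (by omega) hR1 hR2)
      (fun hR1 => by
        rw [hR'j j (by omega)] at hR1
        exact hlab.big j (by omega) hR1) (hopt j hj)
    rw [← hKK] at hnum
    have hpow : Q ^ (m - j) = Q * Q ^ (m - (j + 1)) := by
      rw [← pow_succ']
      congr 1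
      omega
    rw [hF]
    simp only
    rw [hpow]
    obtain ⟨B, hB⟩ : ∃ B : ℝ, B = (Q ^ (m - (j + 1)) * (L : ℝ)) ^ KK := ⟨_, rfl⟩
    have hB0 : 0 ≤ B := by rw [hB]; positivity
    have h1 : (Q * Q ^ (m - (j + 1)) * (L : ℝ)) ^ KK = B * Q ^ KK := by
      rw [hB, mul_assoc, mul_pow Q, mul_comm]
    rw [h1, ← hB]
    have h2 : Q ^ ((KK : ℝ) * (g j + p j) - x j) = (Q ^ (g j + p j)) ^ KK * Q ^ (-x j) := by
      rw [sub_eq_add_neg, Real.rpow_add hQ0, mul_comm (KK : ℝ), Real.rpow_mul hQ0.le,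
        Real.rpow_natCast]
    have h3 : A j ^ (2 * KK) * (Q ^ (g j + p j)) ^ KK =
        A (j + 1) ^ (2 * KK) * (T ^ 2 * rho ^ 3) ^ KK := by
      have h4 := hAA j (by omega)
      rw [pow_mul, pow_mul, ← mul_pow, ← mul_pow, h4]
    have hAj : 0 ≤ A j ^ (2 * KK) := by
      have := hA0 j (by omega)
      positivity
    calc B * Q ^ KK * volume.real (W j) * A j ^ (2 * KK) =
          (B * A j ^ (2 * KK)) * (Q ^ KK * volume.real (W j)) := by ring
      _ ≤ (B * A j ^ (2 * KK)) * (CS * (rho ^ 2) ^ cS * (Q ^ ((KK : ℝ) * (g j + p j) - x j) *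
            volume.real (W (j + 1)))) :=
          mul_le_mul_of_nonneg_left hnum (mul_nonneg hB0 hAj)
      _ = CS * (rho ^ 2) ^ cS * B * Q ^ (-x j) * volume.real (W (j + 1)) *
            (A j ^ (2 * KK) * (Q ^ (g j + p j)) ^ KK) := by rw [h2]; ring
      _ = CS * (rho ^ 2) ^ cS * (T ^ 2 * rho ^ 3) ^ KK * Q ^ (-x j) *
            (B * volume.real (W (j + 1)) * A (j + 1) ^ (2 * KK)) := by rw [h3]; ring
  have hF0 : ∀ j ≤ m, 0 ≤ F j := by
    intro j hj
    rw [hF]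
    have := hA0 j hj
    have := measureReal_nonneg (μ := (volume : Measure (X k))) (s := W j)
    simp only
    positivity
  obtain ⟨K, hK⟩ : ∃ K : ℝ, K = CS * (rho ^ 2) ^ cS * (T ^ 2 * rho ^ 3) ^ KK := ⟨_, rfl⟩
  have hKone : 1 ≤ K := by
    rw [hK]
    have h1 : 1 ≤ T ^ 2 * rho ^ 3 := by
      have h2 : 1 ≤ T ^ 2 := one_le_pow₀ hT
      have h3 : 1 ≤ rho ^ 3 := one_le_pow₀ hrho1
      exact one_le_mul_of_one_le_of_one_le h2 h3
    have h2 : 1 ≤ (T ^ 2 * rho ^ 3) ^ KK := one_le_pow₀ h1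
    have h3 : 1 ≤ (rho ^ 2) ^ cS := one_le_pow₀ (one_le_pow₀ hrho1)
    exact one_le_mul_of_one_le_of_one_le (one_le_mul_of_one_le_of_one_le hCS h3) h2
  have hK0 : 0 < K := by linarith
  have hind : ∀ i ≤ n', F 0 ≤ K ^ i * Q ^ (-∑ j ∈ range i, x j) * F i := by
    intro i
    induction i with
    | zero => intro _; simp
    | succ i ih =>
      intro hi
      have h1 := ih (by omega)
      have h2 := hFstep i (by omega)
      rw [← hK] at h2
      have h3 : 0 ≤ K ^ i * Q ^ (-∑ j ∈ range i, x j) := by positivity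
      refine h1.trans ((mul_le_mul_of_nonneg_left h2 h3).trans (le_of_eq ?_))
      rw [Finset.sum_range_succ, neg_add, Real.rpow_add hQ0, pow_succ]
      ring
  -- the last class
  have hFn : F n' ≤ C := by
    have h1 := hTA1 (q ^ (m - n') * L) (A n') (Nat.one_le_iff_ne_zero.2 (by
      have : 0 < q ^ (m - n') * L := Nat.mul_pos (pow_pos (by omega) _) (by omega)
      omega)) (hA0 n' (by omega))
    rw [← hKK] at h1
    have h2 : W n' ⊆ {a : X k | A n' ≤ ‖u (q ^ (m - n') * L) a‖} := fun w hw =>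
      hch.lo n' (by omega) w hw
    have h3 : volume.real (W n') ≤
        volume.real {a : X k | A n' ≤ ‖u (q ^ (m - n') * L) a‖} :=
      measureReal_mono h2 (measure_ne_top _ _)
    have hN : ((q ^ (m - n') * L : ℕ) : ℝ) = Q ^ (m - n') * L := by
      rw [Nat.cast_mul, Nat.cast_pow, hQ]
    rw [hN] at h1
    have hAn := hA0 n' (by omega)
    refine le_trans ?_ h1
    rw [hF]
    simp only
    calc (Q ^ (m - n') * (L : ℝ)) ^ KK * volume.real (W n') * A n' ^ (2 * KK) =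
          (Q ^ (m - n') * (L : ℝ)) ^ KK * A n' ^ (2 * KK) * volume.real (W n') := by ring
      _ ≤ (Q ^ (m - n') * (L : ℝ)) ^ KK * A n' ^ (2 * KK) *
            volume.real {a : X k | A n' ≤ ‖u (q ^ (m - n') * L) a‖} := by
          refine mul_le_mul_of_nonneg_left h3 (by positivity)
  -- the end
  have hF00 : ((q : ℝ) ^ m * L) ^ KK * t₀ ^ (2 * KK) * volume.real (W 0) ≤
      (2 ^ m) ^ (2 * KK) * F 0 := by
    have h1 := hch.A_lo 0 (Nat.zero_le _)
    have h2 : t₀ ≤ 2 ^ m * A 0 := by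
      rw [div_le_iff₀ (by positivity)] at h1
      linarith
    have h3 : t₀ ^ (2 * KK) ≤ (2 ^ m * A 0) ^ (2 * KK) := pow_le_pow_left₀ ht₀.le h2 _
    rw [hF]
    simp only [Nat.sub_zero]
    rw [← hQ]
    have h5 := measureReal_nonneg (μ := (volume : Measure (X k))) (s := W 0)
    calc (Q ^ m * (L : ℝ)) ^ KK * t₀ ^ (2 * KK) * volume.real (W 0)
        ≤ (Q ^ m * (L : ℝ)) ^ KK * (2 ^ m * A 0) ^ (2 * KK) * volume.real (W 0) :=
          mul_le_mul_of_nonneg_right (mul_le_mul_of_nonneg_left h3 (by positivity)) h5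
      _ = (2 ^ m) ^ (2 * KK) *
            ((Q ^ m * (L : ℝ)) ^ KK * volume.real (W 0) * A 0 ^ (2 * KK)) := by
          rw [mul_pow (2 ^ m) (A 0)]
          ring
  have hK' : K ^ n' ≤ (CS * T ^ (2 * KK)) ^ m * Q ^ (dG / 8) := by
    have h1 : K ^ n' ≤ K ^ m := pow_le_pow_right₀ hKone (by omega)
    have h2 : K ^ m ≤ (CS * T ^ (2 * KK)) ^ m * Q ^ ((E : ℝ) * ε * m) := by
      have h3 : K ≤ (CS * T ^ (2 * KK)) * rho ^ E := by
        have h4 : K = (CS * T ^ (2 * KK)) * rho ^ (2 * cS + 3 * KK) := by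
          rw [hK, mul_pow, ← pow_mul, ← pow_mul, ← pow_mul, pow_add]
          ring
        rw [h4]
        refine mul_le_mul_of_nonneg_left ?_ (by positivity)
        exact pow_le_pow_right₀ hrho1 (by omega)
      refine (pow_le_pow_left₀ hK0.le h3 m).trans (le_of_eq ?_)
      rw [mul_pow]
      congr 1
      rw [← pow_mul, hrho, ← hQ, ← Real.rpow_natCast (Q ^ ε) (E * m), ← Real.rpow_mul hQ0.le]
      congr 1
      push_cast
      ring
    refine (h1.trans h2).trans (mul_le_mul_of_nonneg_left ?_ (by positivity))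
    exact Real.rpow_le_rpow_of_exponent_le hQ1.le hεm
  have hfin := hind n' le_rfl
  have hx' : Q ^ (-∑ j ∈ range n', x j) ≤ Q ^ (-dG) :=
    Real.rpow_le_rpow_of_exponent_le hQ1.le (by linarith)
  have hFn0 := hF0 n' (by omega)
  calc ((q : ℝ) ^ m * L) ^ KK * t₀ ^ (2 * KK) * volume.real (W 0)
      ≤ (2 ^ m) ^ (2 * KK) * F 0 := hF00
    _ ≤ (2 ^ m) ^ (2 * KK) * (K ^ n' * Q ^ (-∑ j ∈ range n', x j) * F n') :=
        mul_le_mul_of_nonneg_left hfin (by positivity)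
    _ ≤ (2 ^ m) ^ (2 * KK) * (((CS * T ^ (2 * KK)) ^ m * Q ^ (dG / 8)) * Q ^ (-dG) * C) := by
        refine mul_le_mul_of_nonneg_left ?_ (by positivity)
        refine mul_le_mul ?_ hFn hFn0 (by positivity)
        exact mul_le_mul hK' hx' (by positivity) (by positivity)
    _ = K1 * (Q ^ (dG / 8) * Q ^ (-dG)) := by rw [hK1]; ring
    _ ≤ Q ^ (dG / 8) * (Q ^ (dG / 8) * Q ^ (-dG)) :=
        mul_le_mul_of_nonneg_right hKb (by positivity)
    _ = Q ^ (-(3 * dG / 4)) := by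
        rw [← Real.rpow_add hQ0, ← Real.rpow_add hQ0]
        congr 1
        ring
    _ ≤ Q ^ (-(dG / 2)) := Real.rpow_le_rpow_of_exponent_le hQ1.le (by linarith)
    _ ≤ Q ^ (-(min (dG / 2) 1)) :=
        Real.rpow_le_rpow_of_exponent_le hQ1.le (neg_le_neg (min_le_left _ _))
    _ = (q : ℝ) ^ (-(min (dG / 2) 1)) := by rw [hQ]

end Pool.Agent.H25.PL
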